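import Pool.Agent.TH325.PI.Inf
import Pool.Agent.TH325.PI.Idx
import Pool.Agent.TH325.PI.Noc
import Pool.Agent.TH325.PI.Ari

set_option autoImplicit false

open Pool.Agent.Helper597.PNI

namespace Pool.Agent.Results.MP_a7db77_an.NoC0

/-- There is an infinite-dimensional complex Banach space without a copy of `c_0` all of whose
polynomial numerical indices are one. The space is the quotient of `L_1(G)`, for `G` the dual of
the discrete group `K × K` with `K` an algebraic closure of the field with three elements, by the
closed span of the characters `(x, x ^ 2)`. -/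
theorem result : ∃ (X : Type) (_ : NormedAddCommGroup X) (_ : NormedSpace ℂ X),
    CompleteSpace X ∧ ¬ FiniteDimensional ℂ X ∧ ¬ ContainsC0 X ∧
      ∀ k : ℕ, 2 ≤ k → polyIndex X k = 1 := by
  obtain ⟨Q⟩ := Pool.Agent.TH325.PI.exists_quo Pool.Agent.TH325.PI.tow3
  refine ⟨Pool.Agent.TH325.PI.Xsp Pool.Agent.TH325.PI.tow3, inferInstance, inferInstance,
    inferInstance, Q.infinite_dim, Pool.Agent.TH325.PI.not_containsC0 Q, fun k hk => ?_⟩
  have := Q.nontriv
  exact Pool.Agent.TH325.PI.idx_one fun A z hz ε hε => Q.radius (by omega) A z hz ε hε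

end Pool.Agent.Results.MP_a7db77_an.NoC0
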